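import Pool.Agent.D0H36.LW.Stm

set_option autoImplicit false

/-! # Module TRIV of project LW: characters which are constant on the two-edge-connected graphs -/

namespace Pool.Agent.D0H12.LW

open Polynomial Pool.Agent.H207R2.BL Pool.Agent.D0H36.BL Pool.Agent.D0H36.LW
open Pool.Agent.R814.BL (Cl)

theorem reach_root {V : Type} (G : SimpleGraph V) (Y : Set V) (r : V)
    (h : ∀ a b, a ∈ Y → b ∉ Y → G.Adj a b → a = r) (hr : r ∈ Y) {u w : V} (p : G.Walk u w) :
    ∀ hu : u ∈ Y, (G.induce Y).Reachable ⟨u, hu⟩ ⟨r, hr⟩ ∨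
      ∃ hw : w ∈ Y, (G.induce Y).Reachable ⟨u, hu⟩ ⟨w, hw⟩ := by
  induction p with
  | nil => exact fun hu => Or.inr ⟨hu, SimpleGraph.Reachable.refl _⟩
  | @cons u v w huv p ih =>
    intro hu
    by_cases hv : v ∈ Y
    · have hadj : (G.induce Y).Adj ⟨u, hu⟩ ⟨v, hv⟩ := huv
      rcases ih hv with h1 | ⟨hw, h1⟩
      · exact Or.inl (hadj.reachable.trans h1)
      · exact Or.inr ⟨hw, hadj.reachable.trans h1⟩
    · left
      have h1 : u = r := h u v hu hv huv
      subst h1
      exact SimpleGraph.Reachable.refl _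

theorem part_conn {V : Type} (G : SimpleGraph V) (hG : G.Connected) (Y : Set V) (r : V)
    (h : ∀ a b, a ∈ Y → b ∉ Y → G.Adj a b → a = r) (hr : r ∈ Y) : (G.induce Y).Connected := by
  have h1 : ∀ u : Y, (G.induce Y).Reachable u ⟨r, hr⟩ := by
    rintro ⟨u, hu⟩
    obtain ⟨p⟩ := hG.preconnected u r
    rcases reach_root G Y r h hr p hu with h2 | ⟨_, h2⟩
    · exact h2
    · exact h2
  have : Nonempty Y := ⟨⟨r, hr⟩⟩
  exact { preconnected := fun u v => (h1 u).trans (h1 v).symm, nonempty := this }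

theorem stay {V : Type} (G : SimpleGraph V) (Y : Set V)
    (h : ∀ a b, a ∈ Y → b ∉ Y → ¬ G.Adj a b) {u w : V} (p : G.Walk u w) : u ∈ Y → w ∈ Y := by
  induction p with
  | nil => exact id
  | @cons u v w huv p ih =>
    intro hu
    apply ih
    by_contra hv
    exact h u v hu hv huv

/-- the properties of the exponents -/
def Ex {M : Type} [CommGroup M] (φ : ℝ[X] → M) (V : Type) [Finite V] (G : SimpleGraph V) : Prop :=
  ∃ c d : ℕ, c + d = Nat.card V ∧
    (Nonempty V → 1 ≤ c) ∧ (G.Connected → c = 1) ∧ φ (chr G) = φ X ^ c * φ (X - 1) ^ d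

theorem two_not {A : SimpleGraph (Fin 2)} (h : TwoEdge A) : False := by
  obtain ⟨a, b, c, d, ha, hb, hc, hd, -, -, hne⟩ := h {0} ⟨0, rfl⟩ ⟨1, by simp⟩
  simp only [Set.mem_singleton_iff] at ha hb hc hd
  apply hne
  have hb' : b = 1 := by omega
  have hd' : d = 1 := by omega
  rw [ha, hc, hb', hd']

theorem ex_of {M : Type} [CommGroup M] (φ : ℝ[X] → M) (hB : S_BOW) (hM : IsMul φ) (hT : Triv φ)
    (n : ℕ) : ∀ (V : Type) [Finite V] (G : SimpleGraph V), Nat.card V = n → Cl V G → Ex φ V G := by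
  classical
  obtain ⟨S, hX, hX1, hX2, hcl, hmul⟩ := hM
  have h1 : φ 1 = 1 := by
    have h := hmul 1 S.one_mem 1 S.one_mem
    rw [mul_one] at h
    exact mul_eq_left.1 h.symm
  have hpow : ∀ p ∈ S, ∀ k : ℕ, φ (p ^ k) = φ p ^ k := by
    intro p hp k
    induction k with
    | zero => rw [pow_zero, pow_zero, h1]
    | succ k ih => rw [pow_succ, hmul _ (S.pow_mem hp k) _ hp, ih, pow_succ]
  -- the values at the book graphs
  have hbk : ∀ h : ℕ, 2 ≤ h → φ (chr (book h)) = φ X * φ (X - 1) * φ (X - 2) ^ (h - 2) := by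
    intro h hh
    rw [hB.2 h hh, hmul _ (S.mul_mem hX hX1) _ (S.pow_mem hX2 _), hmul _ hX _ hX1, hpow _ hX2]
  have h12 : φ (X - 1) = φ (X - 2) := by
    obtain ⟨A, hA1, hA2, hA3⟩ := hB.1
    have h5 := hBK 5 (by norm_num)
    have h6 := hT 5 A (book 5) hA1 h5.1 hA2 h5.2.1
    rw [hA3, hbk 5 (by norm_num), hmul _ (S.mul_mem hX (S.pow_mem hX1 _)) _ (S.pow_mem hX2 _),
      hmul _ hX _ (S.pow_mem hX1 _), hpow _ hX1, hpow _ hX2] at h6
    have h7 : φ X * φ (X - 1) * φ (X - 2) ^ 2 * φ (X - 1) =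
        φ X * φ (X - 1) * φ (X - 2) ^ 2 * φ (X - 2) := by
      calc φ X * φ (X - 1) * φ (X - 2) ^ 2 * φ (X - 1)
          = φ X * φ (X - 1) ^ 2 * φ (X - 2) ^ 2 := by
            rw [pow_two (φ (X - 1))]; ac_rfl
        _ = φ X * φ (X - 1) * φ (X - 2) ^ (5 - 2) := h6
        _ = φ X * φ (X - 1) * φ (X - 2) ^ 2 * φ (X - 2) := by
            rw [show 5 - 2 = 2 + 1 from rfl, pow_succ]; ac_rfl
    exact mul_left_cancel h7
  induction n using Nat.strong_induction_on with
  | _ n ih =>
    intro V _ G hn hG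
    obtain ⟨e⟩ : Nonempty (Fin n ≃ V) := ⟨(Finite.equivFinOfCardEq hn).symm⟩
    set B : SimpleGraph (Fin n) := G.comap e with hBdef
    have hBC : Cl (Fin n) B := hCL.emb _ _ e e.injective G hG
    have hBchr : chr B = chr G := by rw [hBdef, Pool.Agent.D0H70.BL.chr_comap]
    have hBconn : G.Connected → B.Connected := by
      intro h
      exact (SimpleGraph.Iso.comap e G).connected_iff.2 h
    -- it is enough to treat `B`
    suffices hEB : ∃ c d : ℕ, c + d = n ∧ (0 < n → 1 ≤ c) ∧ (B.Connected → c = 1) ∧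
        φ (chr B) = φ X ^ c * φ (X - 1) ^ d by
      obtain ⟨c, d, k1, k2, k3, k4⟩ := hEB
      refine ⟨c, d, by rw [hn]; exact k1, ?_, fun h => k3 (hBconn h), by rw [← hBchr]; exact k4⟩
      intro hne
      apply k2
      rw [← hn]
      exact Nat.card_pos
    have hsub : ∀ Y : Set (Fin n), Yᶜ.Nonempty → Ex φ Y (B.induce Y) := by
      intro Y hY
      exact ih _ (Pool.Agent.D0H70.BL.card_compl Y hY) Y (B.induce Y) rfl
        (hCL.emb _ _ Subtype.val Subtype.val_injective B hBC)
    by_cases hTE : TwoEdge B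
    · rcases Nat.lt_or_ge n 3 with hlt | hge
      · have hn1 : n = 0 ∨ n = 1 ∨ n = 2 := by omega
        rcases hn1 with h0 | h0 | h0
        · subst h0
          have h2 : chr B = 1 := Pool.Agent.Y865.RF.chr_empty B
          refine ⟨0, 0, rfl, fun h => absurd h (lt_irrefl _), ?_, ?_⟩
          · intro hc
            obtain ⟨x⟩ := hc.nonempty
            exact x.elim0
          · rw [h2, h1, pow_zero, pow_zero, mul_one]
        · subst h0
          have h2 : chr B = X * chr (B.comap (Subtype.val : {x : Fin 1 // x ≠ 0} → Fin 1)) :=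
            chr_isolated B 0 (fun x hx => hx.ne (Subsingleton.elim _ _))
          have he : IsEmpty {x : Fin 1 // x ≠ 0} := ⟨fun x => x.2 (Subsingleton.elim _ _)⟩
          have h3 : chr (B.comap (Subtype.val : {x : Fin 1 // x ≠ 0} → Fin 1)) = 1 :=
            Pool.Agent.Y865.RF.chr_empty _
          rw [h3, mul_one] at h2
          refine ⟨1, 0, rfl, fun _ => le_rfl, fun _ => rfl, ?_⟩
          rw [h2, pow_one, pow_zero, mul_one]
        · subst h0
          exact (two_not hTE).elim
      · have h5 := hBK n hge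
        have h6 := hT n B (book n) hBC h5.1 hTE h5.2.1
        refine ⟨1, n - 1, by omega, fun _ => le_rfl, fun _ => rfl, ?_⟩
        rw [h6, hbk n (by omega), ← h12, pow_one, mul_assoc, ← pow_succ',
          show n - 2 + 1 = n - 1 by omega]
    · unfold TwoEdge at hTE
      push Not at hTE
      obtain ⟨Y, hY, hY', hTE⟩ := hTE
      obtain ⟨c1, d1, p1, p2, p3, p4⟩ := hsub Y hY'
      obtain ⟨c2, d2, q1, q2, q3, q4⟩ := hsub Yᶜ (by rwa [compl_compl])
      have hcard : Nat.card Y + Nat.card (Yᶜ : Set (Fin n)) = n := by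
        have := Set.ncard_add_ncard_compl Y
        rw [Nat.card_eq_fintype_card (α := Fin n), Fintype.card_fin] at this
        exact this
      have hc1 : 1 ≤ c1 := p2 hY.to_subtype
      have hc2 : 1 ≤ c2 := q2 hY'.to_subtype
      have hS1 : chr (B.induce Y) ∈ S :=
        hcl _ _ (hCL.emb _ _ Subtype.val Subtype.val_injective B hBC)
      have hS2 : chr (B.induce Yᶜ) ∈ S :=
        hcl _ _ (hCL.emb _ _ Subtype.val Subtype.val_injective B hBC)
      by_cases hedge : ∃ a b, a ∈ Y ∧ b ∉ Y ∧ B.Adj a b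
      · obtain ⟨r, x, hr, hx, hrx⟩ := hedge
        have hone : ∀ a b, a ∈ Y → b ∉ Y → (B.Adj a b ↔ a = r ∧ b = x) := by
          intro a b ha hb
          constructor
          · intro hab
            have := hTE r x a b hr hx ha hb hrx hab
            exact ⟨(congrArg Prod.fst this).symm, (congrArg Prod.snd this).symm⟩
          · rintro ⟨rfl, rfl⟩
            exact hrx
        have h2 := (hPR (Fin n) B Y).2 r x hr hx hone
        have h3 := congrArg φ h2
        rw [hmul _ hX _ (hcl _ _ hBC), hmul _ hX1 _ (S.mul_mem hS1 hS2), hmul _ hS1 _ hS2,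
          p4, q4] at h3
        refine ⟨c1 + c2 - 1, d1 + d2 + 1, by omega, fun _ => by omega, ?_, ?_⟩
        · intro hconn
          have e1 : c1 = 1 := p3 (part_conn B hconn Y r
            (fun a b ha hb hab => ((hone a b ha hb).1 hab).1) hr)
          have e2 : c2 = 1 := q3 (part_conn B hconn Yᶜ x
            (fun a b ha hb hab => ((hone b a (not_not.1 hb) ha).1 hab.symm).2) hx)
          omega
        · apply mul_left_cancel (a := φ X)
          rw [h3]
          obtain ⟨c, hc⟩ : ∃ c, c1 + c2 = c + 1 := ⟨c1 + c2 - 1, by omega⟩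
          have e3 : c1 + c2 - 1 = c := by omega
          rw [e3]
          calc φ (X - 1) * (φ X ^ c1 * φ (X - 1) ^ d1 * (φ X ^ c2 * φ (X - 1) ^ d2))
              = φ X ^ (c1 + c2) * (φ (X - 1) ^ d1 * φ (X - 1) ^ d2 * φ (X - 1)) := by
                rw [pow_add]; ac_rfl
            _ = φ X * (φ X ^ c * φ (X - 1) ^ (d1 + d2 + 1)) := by
                rw [hc, pow_succ', pow_succ, pow_add]; ac_rfl
      · push Not at hedge
        have h2 := (hPR (Fin n) B Y).1 hedge
        have h3 := congrArg φ h2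
        rw [hmul _ hS1 _ hS2, p4, q4] at h3
        refine ⟨c1 + c2, d1 + d2, by omega, fun _ => by omega, ?_, ?_⟩
        · intro hconn
          exfalso
          obtain ⟨u, hu⟩ := hY
          obtain ⟨w, hw⟩ := hY'
          obtain ⟨p⟩ := hconn.preconnected u w
          exact hw (stay B Y hedge p hu)
        · rw [h3, pow_add, pow_add]; ac_rfl

/-- **TRIV.** -/
theorem t_TRIV : S_BOW → S_TRIV := by
  intro hB M _ φ hM hT V _ G hG
  exact ex_of φ hB hM hT (Nat.card V) V G rfl hG

end Pool.Agent.D0H12.LW
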